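import Mathlib
import Pool.Agent.TH942.FG
import Pool.Agent.W263.BSD.Defs

/-! Rank, order of vanishing and sign of the functional equation. -/

set_option autoImplicit false

namespace Pool.Agent.TH562.RF

open Pool.Agent.W263.BSD (IsLSeries)

/-- The rank of the group of rational points of `y² = x³ + a x + b`. -/
noncomputable def rank (a b : ℤ) : ℕ :=
  Module.finrank ℤ
    (WeierstrassCurve.Affine.Point
      (WeierstrassCurve.toAffine
        ({ a₁ := 0, a₂ := 0, a₃ := 0, a₄ := (a : ℚ), a₆ := (b : ℚ) } : WeierstrassCurve ℚ)))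

/-- The theorem of Gross and Zagier and of Kolyvagin (for the modular curves, so by the modularity
theorem for all elliptic curves over `ℚ`): the order of vanishing at `s = 1` of the (incomplete)
`L`-series is the rank whenever this order is at most one. -/
def GrossZagierKolyvagin : Prop :=
  ∀ a b : ℤ, 4 * a ^ 3 + 27 * b ^ 2 ≠ 0 → ∀ F : ℂ → ℂ, IsLSeries a b F →
    analyticOrderAt F 1 ≤ 1 → analyticOrderAt F 1 = rank a b

/-- `Λ(s) = N^(s/2) (2π)^(-s) Γ(s) L(s)` -/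
noncomputable def completed (N : ℕ) (L : ℂ → ℂ) (s : ℂ) : ℂ :=
  (N : ℂ) ^ (s / 2) * (2 * Real.pi : ℂ) ^ (-s) * Complex.Gamma s * L s

/-- The sign of the functional equation: `F` (the incomplete `L`-series of `y² = x³ + a x + b`) is
an entire function `L` times the inverses `1 - α p^(-s) + β p^(1-2s)` (`β = 1` and `α² ≤ 4 p`, or
`β = 0` and `|α| ≤ 1`) of the Euler factors at the primes `p ∣ 2Δ`, and for some `N > 0` the function
`Λ(s) = N^(s/2) (2π)^(-s) Γ(s) L(s)` satisfies `Λ(2 - s) = w Λ(s)` for `0 < Re s < 2`. -/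
def SignIs (a b : ℤ) (F : ℂ → ℂ) (w : ℤ) : Prop :=
  ∃ (N : ℕ) (α β : ℕ → ℤ) (L : ℂ → ℂ), 0 < N ∧ Differentiable ℂ L ∧
    (∀ p, (β p = 1 ∧ α p ^ 2 ≤ 4 * p) ∨ (β p = 0 ∧ |α p| ≤ 1)) ∧
    (∀ s, F s = L s * ∏ p ∈ (2 * (-4 * a ^ 3 - 27 * b ^ 2)).natAbs.primeFactors,
      (1 - (α p : ℂ) * (p : ℂ) ^ (-s) + (β p : ℂ) * (p : ℂ) ^ (1 - 2 * s))) ∧
    ∀ s : ℂ, 0 < s.re → s.re < 2 → completed N L (2 - s) = w * completed N L s

theorem factor_ne {p : ℕ} (hp : p.Prime) {α β : ℤ}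
    (h : (β = 1 ∧ α ^ 2 ≤ 4 * p) ∨ (β = 0 ∧ |α| ≤ 1)) :
    (1 - (α : ℂ) * (p : ℂ) ^ (-(1 : ℂ)) + (β : ℂ) * (p : ℂ) ^ (1 - 2 * (1 : ℂ))) ≠ 0 := by
  have hp0 : (p : ℂ) ≠ 0 := by exact_mod_cast hp.ne_zero
  have e1 : (p : ℂ) ^ (-(1 : ℂ)) = (p : ℂ)⁻¹ := Complex.cpow_neg_one _
  have e2 : (p : ℂ) ^ (1 - 2 * (1 : ℂ)) = (p : ℂ)⁻¹ := by
    rw [← e1]; norm_num
  rw [e1, e2]
  have e3 : (1 - (α : ℂ) * (p : ℂ)⁻¹ + (β : ℂ) * (p : ℂ)⁻¹) = ((p - α + β : ℤ) : ℂ) * (p : ℂ)⁻¹ := by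
    push_cast
    field_simp
  rw [e3]
  refine mul_ne_zero ?_ (inv_ne_zero hp0)
  have hp2 : (2 : ℤ) ≤ p := by exact_mod_cast hp.two_le
  have h0 : (p : ℤ) - α + β ≠ 0 := by
    rcases h with ⟨h1, h2⟩ | ⟨h1, h2⟩
    · subst h1
      intro h3
      have h4 : α = p + 1 := by linarith
      rw [h4] at h2
      nlinarith
    · subst h1
      rw [abs_le] at h2
      intro h3
      linarith [h2.2]
  exact_mod_cast h0

/-- if the sign is `+1`, a zero at `s = 1` is at least double -/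
theorem two_le_of_sign {a b : ℤ} {F : ℂ → ℂ} (hF : SignIs a b F 1) (h0 : F 1 = 0) :
    2 ≤ analyticOrderAt F 1 := by
  obtain ⟨N, α, β, L, hN, hL, hαβ, hFL, hfe⟩ := hF
  have hN0 : (N : ℂ) ≠ 0 := by exact_mod_cast hN.ne'
  have hpi : (2 * Real.pi : ℂ) ≠ 0 := by
    have := Real.pi_ne_zero
    simp [this]
  set P : ℂ → ℂ := fun s => ∏ p ∈ (2 * (-4 * a ^ 3 - 27 * b ^ 2)).natAbs.primeFactors,
      (1 - (α p : ℂ) * (p : ℂ) ^ (-s) + (β p : ℂ) * (p : ℂ) ^ (1 - 2 * s)) with hP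
  have hP1 : P 1 ≠ 0 := by
    rw [hP]
    exact Finset.prod_ne_zero_iff.2 fun p hp => factor_ne (Nat.prime_of_mem_primeFactors hp) (hαβ p)
  have hPd : Differentiable ℂ P := by
    rw [hP]
    refine Differentiable.fun_finsetProd fun p hp => ?_
    have hp0 : (p : ℂ) ≠ 0 := by exact_mod_cast (Nat.prime_of_mem_primeFactors hp).ne_zero
    have d1 : Differentiable ℂ fun s : ℂ => (p : ℂ) ^ (-s) :=
      (differentiable_id.neg).const_cpow (Or.inl hp0)
    have d2 : Differentiable ℂ fun s : ℂ => (p : ℂ) ^ (1 - 2 * s) :=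
      ((differentiable_const _).sub (differentiable_id.const_mul 2)).const_cpow (Or.inl hp0)
    exact ((differentiable_const _).sub (d1.const_mul _)).add (d2.const_mul _)
  have hL1 : L 1 = 0 := by
    have := hFL 1
    rw [h0] at this
    rcases mul_eq_zero.1 this.symm with h | h
    · exact h
    · exact absurd h hP1
  set u : ℂ → ℂ := fun s => (N : ℂ) ^ (s / 2) * (2 * Real.pi : ℂ) ^ (-s) * Complex.Gamma s with hu
  have hu1 : u 1 ≠ 0 := by
    rw [hu]
    simp only [Complex.Gamma_one, mul_one]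
    exact mul_ne_zero (by simp [Complex.cpow_eq_zero_iff, hN0])
      (by simp [Complex.cpow_eq_zero_iff, hpi])
  have hud : DifferentiableAt ℂ u 1 := by
    rw [hu]
    refine ((DifferentiableAt.const_cpow ?_ (Or.inl hN0)).mul
      (DifferentiableAt.const_cpow ?_ (Or.inl hpi))).mul ?_
    · exact differentiableAt_id.div_const 2
    · exact differentiableAt_id.neg
    · refine Complex.differentiableAt_Gamma 1 fun m h => ?_
      have h2 := congrArg Complex.re h
      simp at h2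
      have : (0 : ℝ) ≤ m := Nat.cast_nonneg m
      linarith
  have hG : (fun s : ℂ => u (2 - s) * L (2 - s)) =ᶠ[nhds 1] fun s => u s * L s := by
    have h1 : ∀ᶠ s : ℂ in nhds 1, 0 < s.re ∧ s.re < 2 := by
      have c : Continuous fun s : ℂ => s.re := Complex.continuous_re
      have c1 : IsOpen {s : ℂ | 0 < s.re} := isOpen_lt continuous_const c
      have c2 : IsOpen {s : ℂ | s.re < 2} := isOpen_lt c continuous_const
      have m1 : {s : ℂ | 0 < s.re} ∈ nhds (1 : ℂ) := c1.mem_nhds (by simp)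
      have m2 : {s : ℂ | s.re < 2} ∈ nhds (1 : ℂ) := c2.mem_nhds (by simp)
      filter_upwards [m1, m2] with s h1 h2
      exact ⟨h1, h2⟩
    filter_upwards [h1] with s hs
    have := hfe s hs.1 hs.2
    unfold completed at this
    simp only [hu]
    rw [this]
    push_cast
    ring
  have hdG := hG.deriv_eq
  have hLd : DifferentiableAt ℂ L 1 := hL 1
  have e1 : deriv (fun s : ℂ => u (2 - s) * L (2 - s)) 1 = -deriv (fun s => u s * L s) 1 := by
    have := deriv_comp_const_sub (f := fun s => u s * L s) (a := (2 : ℂ)) (x := 1)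
    rw [this]
    norm_num
  rw [e1] at hdG
  have e2 : deriv (fun s => u s * L s) 1 = 0 := by
    have h2 : (2 : ℂ) * deriv (fun s => u s * L s) 1 = 0 := by
      linear_combination -hdG
    exact (mul_eq_zero.1 h2).resolve_left two_ne_zero
  have e3 : deriv (fun s => u s * L s) 1 = u 1 * deriv L 1 := by
    rw [deriv_fun_mul hud hLd, hL1]; ring
  have hL' : deriv L 1 = 0 := by
    rw [e3] at e2
    exact (mul_eq_zero.1 e2).resolve_left hu1
  have hLa : AnalyticAt ℂ L 1 := hL.analyticAt 1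
  have hLo : ((2 : ℕ) : ℕ∞) ≤ analyticOrderAt L 1 := by
    rw [natCast_le_analyticOrderAt_iff_iteratedDeriv_eq_zero hLa]
    intro i hi
    interval_cases i
    · simpa using hL1
    · rw [iteratedDeriv_one]; exact hL'
  have hFeq : F = L * P := by
    funext s
    exact hFL s
  rw [hFeq, analyticOrderAt_mul hLa (hPd.analyticAt 1)]
  exact le_trans (by exact_mod_cast hLo) le_self_add

/-- an infinite set of affine points gives positive rank -/
theorem one_le_rank {a b : ℤ} (h : 4 * a ^ 3 + 27 * b ^ 2 ≠ 0)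
    (hinf : {p : ℚ × ℚ | p.2 ^ 2 = p.1 ^ 3 + a * p.1 + b}.Infinite) : 1 ≤ rank a b := by
  have hq : 4 * (a : ℚ) ^ 3 + 27 * (b : ℚ) ^ 2 ≠ 0 := by exact_mod_cast h
  have hfg : AddGroup.FG (Pool.Agent.TH942.SPt (a : ℚ) (b : ℚ)) := Pool.Agent.TH942.sfg hq
  have hfin : Module.Finite ℤ (Pool.Agent.TH942.SPt (a : ℚ) (b : ℚ)) :=
    Module.Finite.iff_addGroup_fg.2 hfg
  have hr : rank a b = Module.finrank ℤ (Pool.Agent.TH942.SPt (a : ℚ) (b : ℚ)) := rfl
  by_contra hcon
  have h0 : Module.finrank ℤ (Pool.Agent.TH942.SPt (a : ℚ) (b : ℚ)) = 0 := by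
    rw [← hr]; omega
  rw [Module.finrank_eq_zero_iff_isTorsion] at h0
  have hF : Finite (Pool.Agent.TH942.SPt (a : ℚ) (b : ℚ)) := Module.finite_of_fg_torsion _ h0
  apply hinf
  let f : {p : ℚ × ℚ | p.2 ^ 2 = p.1 ^ 3 + a * p.1 + b} → Pool.Agent.TH942.SPt (a : ℚ) (b : ℚ) :=
    fun p => WeierstrassCurve.Affine.Point.some p.1.1 p.1.2
      (Pool.Agent.TH942.sw_nonsing hq p.2)
  have hf : Function.Injective f := by
    rintro ⟨⟨x, y⟩, hp⟩ ⟨⟨x', y'⟩, hp'⟩ heq
    simp only [f, WeierstrassCurve.Affine.Point.some.injEq] at heq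
    obtain ⟨h1, h2⟩ := heq
    subst h1 h2
    rfl
  exact Set.finite_coe_iff.1 (Finite.of_injective f hf)

theorem two_le_finrank {G : Type*} [AddCommGroup G] (hG : AddGroup.FG G) (P R : G)
    (h : ∀ m n : ℤ, m • P + n • R = 0 → m = 0 ∧ n = 0) : 2 ≤ Module.finrank ℤ G := by
  have hfin : Module.Finite ℤ G := Module.Finite.iff_addGroup_fg.2 hG
  have hl : LinearIndependent ℤ ![P, R] := LinearIndependent.pair_iff.2 h
  simpa using hl.fintype_card_le_finrank

/-- the order is at least `k ≤ 2` if the rank is -/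
theorem order_ge (hGZK : GrossZagierKolyvagin) {a b : ℤ} (h : 4 * a ^ 3 + 27 * b ^ 2 ≠ 0)
    {F : ℂ → ℂ} (hF : IsLSeries a b F) {k : ℕ} (hk : k ≤ 2) (hr : k ≤ rank a b) :
    (k : ℕ∞) ≤ analyticOrderAt F 1 := by
  by_contra hcon
  push Not at hcon
  obtain ⟨n, hn⟩ := ENat.ne_top_iff_exists.1 (ne_top_of_lt hcon)
  have hnk : n < k := by rw [← hn] at hcon; exact_mod_cast hcon
  have hle : analyticOrderAt F 1 ≤ 1 := by
    rw [← hn]
    have : n ≤ 1 := by omega
    exact_mod_cast this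
  have heq := hGZK _ _ h F hF hle
  rw [← hn] at heq
  have : n = rank a b := by exact_mod_cast heq
  omega

end Pool.Agent.TH562.RF
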